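import Pool.Agent.Helper20.IIC.Stmts

/-! # PE1: the probability that all the edges of `K` are closed -/

namespace IIC

open Filter Topology Set
open scoped BigOperators

theorem PE1_symm {V E : Type} (ends : E → Sym2 V) (T : Set E) {x y : V}
    (h : Conn ends T x y) : Conn ends T y x := by
  induction h with
  | refl => exact Relation.ReflTransGen.refl
  | tail _ h2 ih =>
    obtain ⟨e, he, he2⟩ := h2
    refine Relation.ReflTransGen.head ⟨e, he, ?_⟩ ih
    rw [he2, Sym2.eq_swap]

theorem PE1_conn {V E : Type} (ends : E → Sym2 V) (T : Set E) (e : E) (a b : V)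
    (hab : ends e = s(a, b)) {x y : V} (h : Conn ends (insert e T) x y) :
    Conn ends T x y ∨ (Conn ends T x a ∧ Conn ends T b y) ∨
      (Conn ends T x b ∧ Conn ends T a y) := by
  induction h with
  | refl => exact Or.inl Relation.ReflTransGen.refl
  | @tail y z _ h2 ih =>
    obtain ⟨f, hf, hf2⟩ := h2
    rcases hf with rfl | hf
    · rw [hab] at hf2
      rcases Sym2.eq_iff.1 hf2 with ⟨rfl, rfl⟩ | ⟨rfl, rfl⟩
      · rcases ih with h | ⟨h, h'⟩ | ⟨h, h'⟩
        · exact Or.inr (Or.inl ⟨h, Relation.ReflTransGen.refl⟩)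
        · exact Or.inr (Or.inl ⟨h, Relation.ReflTransGen.refl⟩)
        · exact Or.inl h
      · rcases ih with h | ⟨h, h'⟩ | ⟨h, h'⟩
        · exact Or.inr (Or.inr ⟨h, Relation.ReflTransGen.refl⟩)
        · exact Or.inl h
        · exact Or.inr (Or.inr ⟨h, Relation.ReflTransGen.refl⟩)
    · have hs : Step ends T y z := ⟨f, hf, hf2⟩
      rcases ih with h | ⟨h, h'⟩ | ⟨h, h'⟩
      · exact Or.inl (h.tail hs)
      · exact Or.inr (Or.inl ⟨h, h'.tail hs⟩)
      · exact Or.inr (Or.inr ⟨h, h'.tail hs⟩)

theorem PE1_quot {V E : Type} (ends : E → Sym2 V) (T : Set E) (x y : V) :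
    (Quot.mk (Step ends T) x = Quot.mk (Step ends T) y) ↔ Conn ends T x y := by
  rw [Quot.eq]
  constructor
  · intro h
    induction h with
    | rel x y h => exact Relation.ReflTransGen.single h
    | refl x => exact Relation.ReflTransGen.refl
    | symm x y _ ih => exact PE1_symm ends T ih
    | trans x y z _ _ ih1 ih2 => exact ih1.trans ih2
  · intro h
    induction h with
    | refl => exact Relation.EqvGen.refl _
    | tail _ h2 ih => exact ih.trans _ _ _ (Relation.EqvGen.rel _ _ h2)

/-- Adding an edge decreases the number of clusters by at most one. -/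
theorem PE1_ncl {V E : Type} (ends : E → Sym2 V) (T : Set E) (e : E)
    (hfin : Finite (Quot (Step ends (insert e T)))) :
    ncl ends T ≤ ncl ends (insert e T) + 1 := by
  classical
  obtain ⟨a, b, hab⟩ : ∃ a b : V, ends e = s(a, b) := by
    induction h : ends e using Sym2.ind with
    | _ a b => exact ⟨a, b, rfl⟩
  let f : Quot (Step ends T) → Option (Quot (Step ends (insert e T))) := fun q =>
    if q = Quot.mk _ b then none else some (Quot.map id (fun x y h => by
      obtain ⟨e', he', h'⟩ := h
      exact ⟨e', Or.inr he', h'⟩) q)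
  have hf : Function.Injective f := by
    intro p q h
    induction p using Quot.ind with
    | _ x =>
    induction q using Quot.ind with
    | _ y =>
    simp only [f] at h
    by_cases h1 : (Quot.mk (Step ends T) x) = Quot.mk _ b
    · by_cases h2 : (Quot.mk (Step ends T) y) = Quot.mk _ b
      · rw [h1, h2]
      · rw [if_pos h1, if_neg h2] at h
        exact absurd h (by simp)
    · by_cases h2 : (Quot.mk (Step ends T) y) = Quot.mk _ b
      · rw [if_neg h1, if_pos h2] at h
        exact absurd h (by simp)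
      · rw [if_neg h1, if_neg h2] at h
        have h3 : (Quot.mk (Step ends (insert e T)) x) = Quot.mk _ y := by
          simpa [Quot.map] using h
        rw [PE1_quot] at h1 h2 h3 ⊢
        rcases PE1_conn ends T e a b hab h3 with h | ⟨h, h'⟩ | ⟨h, h'⟩
        · exact h
        · exact absurd (PE1_symm ends T h') h2
        · exact absurd h h1
  have h := Nat.card_le_card_of_injective f hf
  rwa [Finite.card_option] at h

theorem PE1_op {d : ℕ} (Λ T : Finset (Ed d)) (e : Ed d) [DecidableEq (Ed d)] (he : e ∈ Λ) :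
    op (exw Λ (insert e T)) = insert e (op (exw Λ T)) := by
  classical
  ext f
  simp only [op, exw, ext, Set.mem_setOf_eq, Set.mem_insert_iff]
  by_cases h : f ∈ Λ
  · simp [h]
  · simp only [h, if_false, or_true]

theorem PE1_sub {d : ℕ} (Λ T : Finset (Ed d)) :
    ((Λ : Set (Ed d))ᶜ) ⊆ op (exw Λ T) := by
  classical
  intro f hf
  have h : f ∉ Λ := by simpa using hf
  simp only [op, exw, ext, Set.mem_setOf_eq, h, if_false]

theorem PE1_fin {d : ℕ} (Λ T : Finset (Ed d)) (hfin : Finite (QV Λ)) :
    Finite (Quot (Step le (op (exw Λ T)))) := by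
  have h : Function.Surjective (Quot.map (ra := Step le ((Λ : Set (Ed d))ᶜ))
      (rb := Step le (op (exw Λ T))) id (fun x y h => by
        obtain ⟨e', he', h'⟩ := h
        exact ⟨e', PE1_sub Λ T he', h'⟩)) := by
    intro q
    induction q using Quot.ind with
    | _ x => exact ⟨Quot.mk _ x, rfl⟩
  exact Finite.of_surjective _ h

theorem PE1_ncl2 {d : ℕ} (Λ T : Finset (Ed d)) (hfin : Finite (QV Λ)) [DecidableEq (Ed d)]
    (K : Finset (Ed d)) (hK : K ⊆ Λ) :
    ncl le (op (exw Λ T)) ≤ ncl le (op (exw Λ (T ∪ K))) + K.card := by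
  classical
  induction K using Finset.induction_on with
  | empty => simp
  | insert e K he ih =>
    have h1 := ih (fun x hx => hK (Finset.mem_insert_of_mem hx))
    have h2 := PE1_ncl le (op (exw Λ (T ∪ K))) e (by
      rw [← PE1_op Λ (T ∪ K) e (hK (Finset.mem_insert_self _ _))]
      exact PE1_fin Λ _ hfin)
    rw [← PE1_op Λ (T ∪ K) e (hK (Finset.mem_insert_self _ _))] at h2
    have e1 : T ∪ insert e K = insert e (T ∪ K) := Finset.union_insert _ _ _
    rw [e1, Finset.card_insert_of_notMem he]
    omega

theorem st_PE1 (h : ST_BR) : ST_PE1 := by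
  classical
  intro d β hβ Λ K hK
  have hfin := (h d Λ).1
  have ha : 0 < Real.exp (2 * β) - 1 := by
    have := Real.add_one_lt_exp (show (2 * β) ≠ 0 by positivity)
    linarith
  set a := Real.exp (2 * β) - 1 with ha'
  have hpos : ∀ T : Finset (Ed d), 0 < wW β Λ T := by
    intro T
    unfold wW
    rw [← ha']
    positivity
  have hw : ∀ T : Finset (Ed d), Disjoint T K → wW β Λ T ≤ (2 / a) ^ K.card * wW β Λ (T ∪ K) := by
    intro T hT
    unfold wW
    rw [← ha', Finset.card_union_of_disjoint hT, pow_add, div_pow]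
    have e1 : (2 ^ K.card / a ^ K.card * (a ^ T.card * a ^ K.card *
        2 ^ ncl le (op (exw Λ (T ∪ K)))) : ℝ) =
        a ^ T.card * 2 ^ (ncl le (op (exw Λ (T ∪ K))) + K.card) := by
      rw [pow_add]
      field_simp
    rw [e1]
    refine mul_le_mul_of_nonneg_left ?_ (by positivity)
    exact pow_le_pow_right₀ (by norm_num) (PE1_ncl2 Λ T hfin K hK)
  unfold PW
  rw [div_le_iff₀ (Finset.sum_pos (fun T _ => hpos T) ⟨∅, by simp⟩)]
  have e2 : ∀ T ∈ Λ.powerset, (EF K).indicator (fun _ => wW β Λ T) (exw Λ T) =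
      if Disjoint T K then wW β Λ T else 0 := by
    intro T hT
    have hiff : exw Λ T ∈ EF K ↔ Disjoint T K := by
      simp only [EF, Set.mem_setOf_eq, Finset.disjoint_right]
      refine forall₂_congr ?_
      intro e he
      simp [exw, ext, hK he]
    by_cases hd : Disjoint T K
    · rw [Set.indicator_of_mem (hiff.2 hd), if_pos hd]
    · rw [Set.indicator_of_notMem (fun h => hd (hiff.1 h)), if_neg hd]
  rw [Finset.sum_congr rfl e2, ← Finset.sum_filter]
  calc ∑ T ∈ Λ.powerset with Disjoint T K, wW β Λ T
      ≤ ∑ T ∈ Λ.powerset with Disjoint T K, (2 / a) ^ K.card * wW β Λ (T ∪ K) :=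
        Finset.sum_le_sum fun T hT => hw T (Finset.mem_filter.1 hT).2
    _ = (2 / a) ^ K.card * ∑ T ∈ Λ.powerset with Disjoint T K, wW β Λ (T ∪ K) := by
        rw [Finset.mul_sum]
    _ = (2 / a) ^ K.card * ∑ T ∈ ({T ∈ Λ.powerset | Disjoint T K}).image (fun T => T ∪ K),
          wW β Λ T := by
        rw [Finset.sum_image]
        intro T hT T' hT' hTT'
        have h1 := (Finset.mem_filter.1 hT).2
        have h2 := (Finset.mem_filter.1 hT').2
        have h3 : (T ∪ K) \ K = (T' ∪ K) \ K := by
          simp only at hTT'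
          rw [hTT']
        rwa [Finset.union_sdiff_cancel_right h1, Finset.union_sdiff_cancel_right h2] at h3
    _ ≤ (2 / a) ^ K.card * ∑ T ∈ Λ.powerset, wW β Λ T := by
        refine mul_le_mul_of_nonneg_left ?_ (by positivity)
        refine Finset.sum_le_sum_of_subset_of_nonneg ?_ (fun T _ _ => (hpos T).le)
        intro T hT
        obtain ⟨T', hT', rfl⟩ := Finset.mem_image.1 hT
        rw [Finset.mem_powerset]
        exact Finset.union_subset (Finset.mem_powerset.1 (Finset.mem_filter.1 hT').1) hK

end IIC
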