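import Pool.Agent.Helper20.IIC.Stmts

/-! # TRM: invariance of the infinite volume measure -/

namespace IIC

open Filter Topology Set MeasureTheory
open scoped BigOperators

theorem TRM_cyl {d : ℕ} (g : lat d ≃g lat d) {A : Set (Cfg d)} (hA : IsCyl A) :
    IsCyl (pb g ⁻¹' A) := by
  classical
  obtain ⟨F, hF⟩ := hA
  refine ⟨F.map g.mapEdgeSet.toEmbedding, ?_⟩
  intro ω ω' h
  refine hF _ _ ?_
  intro e he
  exact h _ (Finset.mem_map.2 ⟨e, he, rfl⟩)

theorem st_TRM (h1 : ST_GEN) (h2 : ST_INV) (h3 : ST_MEAS) : ST_TRM := by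
  classical
  intro d β hβ μ hμ g
  refine (h1 d β hβ).2 _ _ ?_ hμ
  have hm : Measurable (pb g) := (h3 d).2.2.2.2.2 g
  have hp : IsProbabilityMeasure μ := hμ.1
  refine ⟨Measure.isProbabilityMeasure_map hm.aemeasurable, ?_⟩
  intro A hA
  have hAm : MeasurableSet A := (h3 d).1 A hA
  have e1 : (Measure.map (pb g) μ).real A = μ.real (pb g ⁻¹' A) := by
    rw [map_measureReal_apply hm hAm]
  rw [e1]
  have t1 := hμ.2 _ (TRM_cyl g hA)
  have t2 : Tendsto (fun Λ : Finset (Ed d) => Λ.map g.mapEdgeSet.toEmbedding) atTop atTop := by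
    refine tendsto_atTop.2 ?_
    intro s
    refine eventually_atTop.2 ⟨s.map g.symm.mapEdgeSet.toEmbedding, ?_⟩
    intro Λ hΛ e he
    refine Finset.mem_map.2 ⟨g.symm.mapEdgeSet e, hΛ (Finset.mem_map.2 ⟨e, he, rfl⟩), ?_⟩
    exact g.mapEdgeSet.apply_symm_apply e
  have t3 := t1.comp t2
  refine t3.congr ?_
  intro Λ
  simp only [Function.comp_apply]
  rw [(h2 d g).1]
  congr 1
  ext e
  simp only [Finset.mem_map]
  constructor
  · rintro ⟨f, ⟨f', hf', rfl⟩, rfl⟩
    have : g.symm.mapEdgeSet.toEmbedding (g.mapEdgeSet.toEmbedding f') = f' :=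
      g.mapEdgeSet.symm_apply_apply f'
    rw [this]
    exact hf'
  · intro he
    exact ⟨g.mapEdgeSet.toEmbedding e, ⟨e, he, rfl⟩, g.mapEdgeSet.symm_apply_apply e⟩

end IIC
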