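import Pool.Agent.Helper20.IIC.Stmts

/-! # TWO: properties of the two point function -/

namespace IIC

theorem st_TWO (h1 : ST_TWB) (h2 : ST_MM1) (h3 : ST_MM2) : ST_TWO := by
  intro d hd β hβ
  obtain ⟨⟨a1, a2, a3, a4, a5, a6, a7⟩, b, c, e, f⟩ := h1 d hd β hβ
  exact ⟨⟨a1, a2, a3, a4, a5, a6, h2 d hd β hβ, h3 d hd β hβ, a7⟩, b, c, e, f⟩

end IIC
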