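import Pool.Agent.Helper20.IIC.Stmts

/-! # WEX: existence of good weights -/

namespace IIC

open Filter Topology Set
open scoped BigOperators

theorem WEX_mem {d : ℕ} {i₀ : Fin d} {R n : ℕ} {u : Fin d → ℤ} (h : u ∈ Rg i₀ R n) :
    Cone i₀ u ∧ (R : ℤ) ≤ u i₀ := by
  classical
  unfold Rg at h
  exact (Finset.mem_filter.1 h).2

theorem st_WEX (h1 : ST_WA) (h2 : ST_WR) (h3 : ST_WD) : ST_WEX := by
  intro d hd i₀ S hS hpos hlim hsim ε hε R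
  obtain ⟨a1, ⟨C, hC⟩, a3⟩ := h2 d hd i₀ S hS hpos hsim (max R 1) (le_max_right _ _)
  obtain ⟨W, w, b1, b2, b3, b4⟩ := h3 d S (fun n => Rg i₀ (max R 1) n) C hpos hS.neg hlim a1 hC
    (fun n u hu δ hδ => a3 u (WEX_mem hu).1 δ hδ) ε hε
  refine ⟨W, w, b1, b2, ?_, b4⟩
  intro u hu
  obtain ⟨n, hn⟩ := b3 u hu
  obtain ⟨c1, c2⟩ := WEX_mem hn
  refine ⟨?_, c1⟩
  have c3 := (h1 d hd i₀ S hS).2.2.2.2.2 u c1
  have c4 : (R : ℤ) ≤ ((max R 1 : ℕ) : ℤ) := by exact_mod_cast le_max_left R 1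
  have c5 : (R : ℤ) ≤ (nrm u : ℤ) := by rw [c3]; exact c4.trans c2
  exact_mod_cast c5

end IIC
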