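import Pool.Agent.Helper20.IIC.Stmts

/-! # LIN: from the events `EF F` to all the cylinder events -/

namespace IIC

open Filter Topology Set MeasureTheory
open scoped BigOperators

/-- `A` is a linear combination of the events `EF F`. -/
def LIN_P {d : ℕ} (A : Set (Cfg d)) : Prop :=
  ∃ c : Finset (Ed d) →₀ ℝ, ∀ (μ : Measure (Cfg d)) [IsFiniteMeasure μ] (B : Set (Cfg d)),
    μ.real (A ∩ B) = c.sum fun F x => x * μ.real (EF F ∩ B)

theorem LIN_meas {d : ℕ} (e : Ed d) (b : Bool) : MeasurableSet {ω : Cfg d | ω e = b} := by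
  have h : Measurable (fun ω : Cfg d => ω e) := measurable_pi_apply e
  exact h (MeasurableSet.singleton b)

theorem LIN_aux {d : ℕ} (F : Finset (Ed d)) : ∀ (G : Finset (Ed d)) (A : Set (Cfg d)),
    (∀ ω ω' : Cfg d, (∀ e ∈ F, ω e = ω' e) → (ω ∈ A ↔ ω' ∈ A)) → LIN_P (EF G ∩ A) := by
  classical
  induction F using Finset.induction_on with
  | empty =>
    intro G A hA
    by_cases h : (fun _ => false : Cfg d) ∈ A
    · have hA' : A = Set.univ := by
        ext ω
        simp only [Set.mem_univ, iff_true]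
        exact (hA ω (fun _ => false) (by simp)).2 h
      refine ⟨Finsupp.single G 1, ?_⟩
      intro μ _ B
      rw [Finsupp.sum_single_index (by simp), hA', Set.inter_univ, one_mul]
    · have hA' : A = ∅ := by
        ext ω
        simp only [Set.mem_empty_iff_false, iff_false]
        intro h'
        exact h ((hA ω (fun _ => false) (by simp)).1 h')
      refine ⟨0, ?_⟩
      intro μ _ B
      rw [hA']
      simp
  | insert e F he ih =>
    intro G A hA
    have key : ∀ b : Bool, ∀ ω ω' : Cfg d, (∀ e ∈ F, ω e = ω' e) →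
        (ω ∈ {ω : Cfg d | Function.update ω e b ∈ A} ↔
          ω' ∈ {ω : Cfg d | Function.update ω e b ∈ A}) := by
      intro b ω ω' h
      refine hA _ _ ?_
      intro f hf
      rcases Finset.mem_insert.1 hf with rfl | hf
      · simp
      · by_cases hfe : f = e
        · subst hfe
          simp
        · rw [Function.update_of_ne hfe, Function.update_of_ne hfe]
          exact h f hf
    obtain ⟨c0, h0⟩ := ih (insert e G) _ (key false)
    obtain ⟨c1, h1⟩ := ih G _ (key true)
    obtain ⟨c2, h2⟩ := ih (insert e G) _ (key true)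
    refine ⟨c0 + (c1 - c2), ?_⟩
    intro μ _ B
    rw [Finsupp.sum_add_index' (by simp) (by intros; ring),
      Finsupp.sum_sub_index (by intros; ring), ← h0, ← h1, ← h2]
    have m1 := measureReal_inter_add_sdiff (μ := μ) (s := EF G ∩ A ∩ B) (LIN_meas e false)
    have m2 := measureReal_inter_add_sdiff (μ := μ)
      (s := EF G ∩ {ω : Cfg d | Function.update ω e true ∈ A} ∩ B) (LIN_meas e false)
    have e1 : EF G ∩ A ∩ B ∩ {ω : Cfg d | ω e = false} =
        EF (insert e G) ∩ {ω : Cfg d | Function.update ω e false ∈ A} ∩ B := by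
      ext ω
      simp only [Set.mem_inter_iff, Set.mem_setOf_eq, EF, Finset.forall_mem_insert]
      constructor
      · rintro ⟨⟨⟨h1, h2⟩, h3⟩, h4⟩
        refine ⟨⟨⟨h4, h1⟩, ?_⟩, h3⟩
        rw [← h4, Function.update_eq_self]
        exact h2
      · rintro ⟨⟨⟨h4, h1⟩, h2⟩, h3⟩
        rw [← h4, Function.update_eq_self] at h2
        exact ⟨⟨⟨h1, h2⟩, h3⟩, h4⟩
    have e2 : EF G ∩ {ω : Cfg d | Function.update ω e true ∈ A} ∩ B ∩ {ω : Cfg d | ω e = false} =
        EF (insert e G) ∩ {ω : Cfg d | Function.update ω e true ∈ A} ∩ B := by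
      ext ω
      simp only [Set.mem_inter_iff, Set.mem_setOf_eq, EF, Finset.forall_mem_insert]
      tauto
    have e3 : (EF G ∩ A ∩ B) \ {ω : Cfg d | ω e = false} =
        (EF G ∩ {ω : Cfg d | Function.update ω e true ∈ A} ∩ B) \ {ω : Cfg d | ω e = false} := by
      ext ω
      simp only [Set.mem_inter_iff, Set.mem_setOf_eq, EF, Set.mem_diff]
      constructor
      · rintro ⟨⟨⟨h1, h2⟩, h3⟩, h4⟩
        have h5 : ω e = true := by simpa using h4
        refine ⟨⟨⟨h1, ?_⟩, h3⟩, h4⟩
        rw [← h5, Function.update_eq_self]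
        exact h2
      · rintro ⟨⟨⟨h1, h2⟩, h3⟩, h4⟩
        have h5 : ω e = true := by simpa using h4
        rw [← h5, Function.update_eq_self] at h2
        exact ⟨⟨⟨h1, h2⟩, h3⟩, h4⟩
    rw [e1, e3] at m1
    rw [e2] at m2
    linarith

theorem st_LIN : ST_LIN := by
  intro d A hA
  obtain ⟨F, hF⟩ := hA
  obtain ⟨c, hc⟩ := LIN_aux F ∅ A hF
  refine ⟨c.support, c, ?_⟩
  intro μ _ B _
  have h := hc μ B
  have e : EF (∅ : Finset (Ed d)) ∩ A = A := by
    ext ω
    simp [EF]
  rw [e] at h
  rw [h]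
  rfl

end IIC
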